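import Mathlib
import Pool.Agent.Helper94.LK.Spec

/-! MP_e4073d_mp, part THREEA: upper bound of the form on odd functions. -/

open MeasureTheory Filter Topology Set
open scoped ENNReal

namespace Pool.Agent.Helper76.LK

open Pool.Agent.Helper94.LK

/-- integral of `kap (c |u|)` -/
lemma lint_kap (hK2 : S_K2) (hK1 : S_K1) {c : ℝ} (hc : 0 < c) :
    ∫⁻ u : ℝ, ENNReal.ofReal (kap (c * |u|)) = ENNReal.ofReal (1 / (2 * c)) := by
  have h1 : ∀ u : ℝ, kap (c * |u|) = (fun u => kap |u|) (c * u) := by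
    intro u
    simp only [abs_mul, abs_of_pos hc]
  have hint : Integrable (fun u : ℝ => kap (c * |u|)) := by
    simp_rw [h1]
    exact hK2.int0.comp_mul_left' hc.ne'
  rw [← ofReal_integral_eq_lintegral_ofReal hint (Eventually.of_forall fun u => hK1.nonneg _)]
  congr 1
  simp_rw [h1]
  rw [Measure.integral_comp_mul_left (fun u : ℝ => kap |u|) c, hK2.val0, abs_of_pos (by positivity),
    smul_eq_mul]
  field_simp

lemma lint_shift (hK2 : S_K2) (hK1 : S_K1) {c : ℝ} (hc : 0 < c) (s : ℝ) :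
    ∫⁻ u : ℝ, ENNReal.ofReal (kap (c * |s - u|)) = ENNReal.ofReal (1 / (2 * c)) := by
  rw [← lint_kap hK2 hK1 hc]
  exact lintegral_sub_left_eq_self (fun u : ℝ => ENNReal.ofReal (kap (c * |u|))) s

lemma lint_shift' (hK2 : S_K2) (hK1 : S_K1) {c : ℝ} (hc : 0 < c) (s : ℝ) :
    ∫⁻ u : ℝ, ENNReal.ofReal (kap (c * |s + u|)) = ENNReal.ofReal (1 / (2 * c)) := by
  rw [← lint_kap hK2 hK1 hc]
  exact lintegral_add_left_eq_self (fun u : ℝ => ENNReal.ofReal (kap (c * |u|))) s

lemma abs_abs_sub (s t : ℝ) : |(|s| - |t|)| = |s - t| ∨ |(|s| - |t|)| = |s + t| := by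
  rcases abs_cases s with ⟨h1, _⟩ | ⟨h1, _⟩ <;> rcases abs_cases t with ⟨h2, _⟩ | ⟨h2, _⟩ <;>
    rw [h1, h2]
  · left; rfl
  · right; ring_nf
  · right; rw [← abs_neg]; ring_nf
  · left; rw [← abs_neg]; ring_nf

/-- the fold of the comparison kernel -/
noncomputable def KF (c s t : ℝ) : ℝ := kap (c * |(|s| - |t|)|)

lemma ae_abs_ne : ∀ᵐ z : ℝ × ℝ, |z.1| ≠ |z.2| := by
  have hm : MeasurableSet {z : ℝ × ℝ | |z.1| = |z.2|} :=
    measurableSet_eq_fun (by fun_prop) (by fun_prop)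
  rw [ae_iff]
  simp only [ne_eq, not_not]
  rw [Measure.volume_eq_prod, Measure.measure_prod_null hm]
  refine Eventually.of_forall fun x => ?_
  have : Prod.mk x ⁻¹' {z : ℝ × ℝ | |z.1| = |z.2|} ⊆ {x, -x} := by
    intro y hy
    simp only [mem_preimage, mem_ofPred_eq] at hy
    rcases abs_eq_abs.mp hy with h | h
    · left; exact h.symm
    · right; rw [h, neg_neg]; rfl
  exact measure_mono_null this ((Set.toFinite _).measure_zero _)

theorem threeA_thm (hK1 : S_K1) (hK2 : S_K2) (hG : S_GEO) (hS : S_SCH) (hKB : S_KB) :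
    S_THREEA := by
  intro p L hp hp1 hL f hf hodd
  set c : ℝ := √(9 / 10) with hc
  have hcpos : 0 < c := Real.sqrt_pos.mpr (by norm_num)
  set γ := crv p L with hγ
  have hanti : AntitoneOn kap (Ioi 0) := hK1.anti.antitoneOn
  -- the kernel
  have hKer : KerBdd (KF c) (1 / c) := by
    refine hS (KF c) (1 / c) (by positivity) ?_ (fun s s' => hK1.nonneg _) ?_ ?_
    · exact hK1.meas.comp (by fun_prop)
    · intro s s'
      unfold KF
      rw [abs_sub_comm]
    · intro s
      have hle : ∀ t, ENNReal.ofReal (KF c s t) ≤ ENNReal.ofReal (kap (c * |s - t|))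
          + ENNReal.ofReal (kap (c * |s + t|)) := by
        intro t
        unfold KF
        rcases abs_abs_sub s t with h | h <;> rw [h]
        · exact le_self_add
        · exact le_add_self
      calc ∫⁻ t, ENNReal.ofReal (KF c s t) ≤ ∫⁻ t, (ENNReal.ofReal (kap (c * |s - t|))
          + ENNReal.ofReal (kap (c * |s + t|))) := lintegral_mono hle
        _ = ENNReal.ofReal (1 / (2 * c)) + ENNReal.ofReal (1 / (2 * c)) := by
            rw [lintegral_add_left, lint_shift hK2 hK1 hcpos, lint_shift' hK2 hK1 hcpos]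
            exact (hK1.meas.comp (by fun_prop)).ennreal_ofReal
        _ = ENNReal.ofReal (1 / c) := by
            rw [← ENNReal.ofReal_add (by positivity) (by positivity)]
            congr 1
            field_simp
            norm_num
        _ ≤ ENNReal.ofReal (1 / c) := le_rfl
  have hGK : KerBdd (GC γ) (1 / (2 * (4 / 5 * p))) :=
    hKB.kC γ (4 / 5 * p) (by positivity) (hG.conts p L hp hp1 hL) (fun s s' => by
      exact hG.low p L s s' hp hp1 hL)
  -- pointwise bound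
  have hbase : ∀ a b : ℝ, 0 ≤ a → 0 ≤ b → a ≠ b →
      |kap ‖γ a - γ b‖ - kap ‖γ a - γ (-b)‖| ≤ kap (c * |a - b|) := by
    intro a b ha hb hab
    have h1 : c * |a - b| ≤ ‖γ a - γ b‖ := by
      have h2 := hG.same p L a b hp hp1 hL ha hb
      have h3 : (c * |a - b|) ^ 2 ≤ ‖γ a - γ b‖ ^ 2 := by
        rw [mul_pow, sq_abs, hc, Real.sq_sqrt (by norm_num)]
        exact h2
      exact (pow_le_pow_iff_left₀ (by positivity) (norm_nonneg _) two_ne_zero).mp h3
    have h0 : 0 < c * |a - b| := mul_pos hcpos (abs_pos.mpr (sub_ne_zero.mpr hab))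
    have h2 : ‖γ a - γ b‖ ≤ ‖γ a - γ (-b)‖ := hG.cross p L a b hp hp1 hL ha hb
    have k1 : kap ‖γ a - γ b‖ ≤ kap (c * |a - b|) :=
      hanti (mem_Ioi.mpr h0) (mem_Ioi.mpr (lt_of_lt_of_le h0 h1)) h1
    have k2 : kap ‖γ a - γ (-b)‖ ≤ kap ‖γ a - γ b‖ :=
      hanti (mem_Ioi.mpr (lt_of_lt_of_le h0 h1))
        (mem_Ioi.mpr (lt_of_lt_of_le h0 (h1.trans h2))) h2
    have k3 := hK1.nonneg ‖γ a - γ (-b)‖
    rw [abs_le]
    constructor <;> linarith
  have hpt : ∀ s t : ℝ, |s| ≠ |t| → |GC γ s t - GC γ s (-t)| ≤ KF c s t := by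
    intro s t hst
    have hb := hbase |s| |t| (abs_nonneg _) (abs_nonneg _) hst
    unfold GC KF
    have hr : ∀ a b, ‖γ (-a) - γ (-b)‖ = ‖γ a - γ b‖ := fun a b => hG.refl p L a b hp hp1 hL
    rcases abs_cases s with ⟨h1, _⟩ | ⟨h1, _⟩ <;> rcases abs_cases t with ⟨h2, _⟩ | ⟨h2, _⟩ <;>
      rw [h1, h2] at hb <;> rw [h1, h2]
    · exact hb
    · rw [neg_neg] at hb
      rw [abs_sub_comm]
      exact hb
    · rw [hr, ← hr (-s) t, neg_neg] at hb
      rw [abs_sub_comm]
      exact hb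
    · rw [hr, neg_neg, ← hr (-s) t, neg_neg] at hb
      exact hb
  -- integrability
  have hi1 : Integrable (fun z : ℝ × ℝ => GC γ z.1 z.2 * (f z.1 * f z.2)) := hGK.int f f hf hf
  have hmp : MeasurePreserving (fun z : ℝ × ℝ => (z.1, -z.2)) := by
    have := (MeasurePreserving.id (volume : Measure ℝ)).prod
      (Measure.measurePreserving_neg (volume : Measure ℝ))
    exact this
  have hme : MeasurableEmbedding (fun z : ℝ × ℝ => (z.1, -z.2)) :=
    ((MeasurableEquiv.refl ℝ).prodCongr (MeasurableEquiv.neg ℝ)).measurableEmbedding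
  have hi2 : Integrable (fun z : ℝ × ℝ => GC γ z.1 (-z.2) * (f z.1 * f z.2)) := by
    have h := (hmp.integrable_comp_emb hme (g := fun z : ℝ × ℝ => GC γ z.1 z.2 * (f z.1 * f z.2))).mpr hi1
    have h2 : (fun z : ℝ × ℝ => GC γ z.1 (-z.2) * (f z.1 * f z.2))
        = -((fun z : ℝ × ℝ => GC γ z.1 z.2 * (f z.1 * f z.2)) ∘ fun z : ℝ × ℝ => (z.1, -z.2)) := by
      funext z
      simp only [Pi.neg_apply, Function.comp, hodd z.2]
      ring
    rw [h2]
    exact h.neg
  have hB2 : Bil (GC γ) f f = -∫ z : ℝ × ℝ, GC γ z.1 (-z.2) * (f z.1 * f z.2) := by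
    unfold Bil
    rw [← hmp.integral_comp hme, ← integral_neg]
    refine integral_congr_ae (Eventually.of_forall fun z => ?_)
    simp only [hodd z.2]
    ring
  have hfa : MemLp (fun s => |f s|) 2 volume := hf.abs
  have hi3 : Integrable (fun z : ℝ × ℝ => KF c z.1 z.2 * (|f z.1| * |f z.2|)) :=
    hKer.int _ _ hfa hfa
  have h2B : 2 * Bil (GC γ) f f ≤ Bil (KF c) (fun s => |f s|) (fun s => |f s|) := by
    have : 2 * Bil (GC γ) f f = ∫ z : ℝ × ℝ,
        (GC γ z.1 z.2 * (f z.1 * f z.2) - GC γ z.1 (-z.2) * (f z.1 * f z.2)) := by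
      rw [integral_sub hi1 hi2, two_mul]
      nth_rewrite 2 [hB2]
      unfold Bil
      ring
    rw [this]
    unfold Bil
    refine integral_mono_ae (hi1.sub hi2) hi3 ?_
    filter_upwards [ae_abs_ne] with z hz
    have h4 := hpt z.1 z.2 hz
    calc GC γ z.1 z.2 * (f z.1 * f z.2) - GC γ z.1 (-z.2) * (f z.1 * f z.2)
        = (GC γ z.1 z.2 - GC γ z.1 (-z.2)) * (f z.1 * f z.2) := by ring
      _ ≤ |GC γ z.1 z.2 - GC γ z.1 (-z.2)| * |f z.1 * f z.2| := by
          rw [← abs_mul]; exact le_abs_self _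
      _ ≤ KF c z.1 z.2 * (|f z.1| * |f z.2|) := by
          rw [abs_mul (f z.1)]
          exact mul_le_mul_of_nonneg_right h4 (by positivity)
  have hNa : N (fun s => |f s|) = N f := by
    unfold N
    simp only [sq_abs]
  have hNn : 0 ≤ N f := integral_nonneg fun s => sq_nonneg _
  have hb := (abs_le.mp (hKer.bd _ _ hfa hfa)).2
  rw [hNa, mul_assoc, Real.mul_self_sqrt hNn] at hb
  have : 1 / (2 * c) * N f = (1 / c * N f) / 2 := by
    field_simp
  rw [this]
  linarith

end Pool.Agent.Helper76.LK
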